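import Pool.Agent.helper84.WZ.SpecA

/-! # Project wz, module LAB: every long position has a label -/

set_option autoImplicit false

namespace WZ

/-- sign of a run relative to the last run of its type -/
def LAB_e (h q : ℕ) : ℚ := if q % (2 * h + 2) < 2 * h - 2 then -1 else 1

/-- the last run of the type of `q` in the position of `q` -/
def LAB_l (h q : ℕ) : ℕ := (q / (2 * h + 2)) * (2 * h + 2) + (2 * h - 2 + q % (2 * h + 2) % 2)

theorem LAB_bc {h : ℕ} (hh : 3 ≤ h) {lng : ℕ → Prop} {ψ : ℕ → ℚ} (hψ : BC h lng ψ) {q : ℕ}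
    (hq : LR h lng q) : ψ q = LAB_e h q * ψ (LAB_l h q) := by
  obtain ⟨h1, h2⟩ := hq
  have hdm : q = (q / (2 * h + 2)) * (2 * h + 2) + q % (2 * h + 2) := by
    have := Nat.div_add_mod q (2 * h + 2)
    rw [mul_comm] at this
    exact this.symm
  unfold LAB_e LAB_l
  split_ifs with h3
  · have := hψ (q / (2 * h + 2)) (q % (2 * h + 2)) h1 h3
    rw [← hdm] at this
    rw [this]
    ring
  · have h4 : q % (2 * h + 2) = 2 * h - 2 + q % (2 * h + 2) % 2 := by omega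
    rw [← h4, ← hdm, one_mul]

theorem LAB_e_ne (h q : ℕ) : LAB_e h q = 1 ∨ LAB_e h q = -1 := by
  unfold LAB_e
  split_ifs
  · exact Or.inr rfl
  · exact Or.inl rfl

theorem LAB_sum {M r t : ℕ} {ψ : ℕ → ℚ} {π : ℕ → ℕ} (hr : r < M) (ht : t < M) (hrt : r ≠ t)
    (hsupp : ∀ q, π q ≠ 0 → q = r ∨ q = t)
    (h : ∑ q ∈ Finset.range M, ψ q * (π q : ℚ) = 0) : ψ r * π r + ψ t * π t = 0 := by
  rw [← Finset.sum_subset (s₁ := {r, t})] at h
  · rw [Finset.sum_pair hrt] at h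
    exact h
  · intro q hq
    rw [Finset.mem_insert, Finset.mem_singleton] at hq
    rw [Finset.mem_range]
    rcases hq with rfl | rfl <;> assumption
  · intro q _ hq
    rw [Finset.mem_insert, Finset.mem_singleton] at hq
    have : π q = 0 := by
      by_contra h0
      exact hq (hsupp q h0)
    rw [this]
    simp

/-- the integer `± π q` -/
def LAB_c (h : ℕ) (π : ℕ → ℕ) (q : ℕ) : ℤ :=
  (if q % (2 * h + 2) < 2 * h - 2 then -1 else 1) * (π q : ℤ)

theorem LAB_c_cast (h : ℕ) (π : ℕ → ℕ) (q : ℕ) : ((LAB_c h π q : ℤ) : ℚ) = LAB_e h q * π q := by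
  unfold LAB_c LAB_e
  split_ifs <;> push_cast <;> ring

theorem LAB_c_abs (h : ℕ) (π : ℕ → ℕ) (q B : ℕ) (hB : π q ≤ B) : |LAB_c h π q| ≤ B := by
  unfold LAB_c
  have : (π q : ℤ) ≤ B := by exact_mod_cast hB
  split_ifs
  · rw [abs_mul, abs_neg, abs_one, one_mul, abs_of_nonneg (by positivity)]
    exact this
  · rw [one_mul, abs_of_nonneg (by positivity)]
    exact this

theorem LAB_c_ne (h : ℕ) (π : ℕ → ℕ) (q : ℕ) (h0 : π q ≠ 0) : LAB_c h π q ≠ 0 := by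
  unfold LAB_c
  have : (π q : ℤ) ≠ 0 := by exact_mod_cast h0
  split_ifs
  · exact mul_ne_zero (by norm_num) this
  · exact mul_ne_zero (by norm_num) this

/-- relation between the two last runs of the positions of `r` and `t` -/
theorem LAB_rel {h M : ℕ} (hh : 3 ≤ h) {lng : ℕ → Prop} {ψ : ℕ → ℚ} (hψ : BC h lng ψ) {r t : ℕ}
    {π : ℕ → ℕ} (hr : r < M) (ht : t < M) (hrt : r ≠ t) (hLr : LR h lng r) (hLt : LR h lng t)
    (hsupp : ∀ q, π q ≠ 0 → q = r ∨ q = t)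
    (hs : ∑ q ∈ Finset.range M, ψ q * (π q : ℚ) = 0) :
    (LAB_c h π r : ℚ) * ψ (LAB_l h r) + (LAB_c h π t : ℚ) * ψ (LAB_l h t) = 0 := by
  have h1 := LAB_sum hr ht hrt hsupp hs
  rw [LAB_bc hh hψ hLr, LAB_bc hh hψ hLt] at h1
  rw [LAB_c_cast, LAB_c_cast]
  linarith

theorem LAB (hADJ : ADJ_stmt) : LAB_stmt := by
  intro h n B M lng Q hh hn hM hlng hSm hNC hFP p hp
  have hw : 0 < 2 * h + 2 := by omega
  -- runs of the position p
  have hrun : ∀ j, j < 2 * h → (p * (2 * h + 2) + j) / (2 * h + 2) = p ∧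
      (p * (2 * h + 2) + j) % (2 * h + 2) = j := by
    intro j hj
    constructor
    · rw [mul_comm, Nat.mul_add_div hw, Nat.div_eq_of_lt (by omega), add_zero]
    · rw [mul_comm, Nat.mul_add_mod, Nat.mod_eq_of_lt (by omega)]
  have hLRr : ∀ j, j < 2 * h → LR h lng (p * (2 * h + 2) + j) := by
    intro j hj
    obtain ⟨h1, h2⟩ := hrun j hj
    refine ⟨?_, ?_⟩
    · rw [h1]; exact hp
    · rw [h2]; exact hj
  have hB : 1 ≤ B := by
    obtain ⟨π, hπ, h0, _⟩ := hFP _ (hLRr 0 (by omega))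
    have := (hSm π hπ).1 (p * (2 * h + 2) + 0)
    omega
  have hBz : (1 : ℤ) ≤ B := by exact_mod_cast hB
  have hB3 : (B : ℤ) ≤ (B : ℤ) ^ 3 := by nlinarith [mul_nonneg (sub_nonneg.mpr hBz) (sub_nonneg.mpr hBz), mul_pos (lt_of_lt_of_le one_pos hBz) (lt_of_lt_of_le one_pos hBz)]
  have hB2 : (B : ℤ) ^ 2 ≤ (B : ℤ) ^ 3 := by nlinarith [mul_nonneg (sub_nonneg.mpr hBz) (sub_nonneg.mpr hBz), sq_nonneg (B : ℤ), mul_nonneg (sq_nonneg (B : ℤ)) (sub_nonneg.mpr hBz)]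
  by_cases hcase : ∃ π ∈ Q, (∃ q, π q ≠ 0) ∧ ∀ q, π q ≠ 0 → LR h lng q ∧ q / (2 * h + 2) = p
  · obtain ⟨d, hd0, h1, h2, hrel⟩ := hADJ h n B M lng Q hh hM hlng hSm hNC hFP p hp hcase
    exact ⟨d, hd0, h1.trans hB3, h2.trans hB3, hrel⟩
  -- the periods of the runs of p
  have key : ∀ j, j < 2 * h → ∃ π ∈ Q, ∃ t, π (p * (2 * h + 2) + j) ≠ 0 ∧ π t ≠ 0 ∧ LR h lng t ∧
      p < t / (2 * h + 2) ∧ ∀ q, π q ≠ 0 → q = p * (2 * h + 2) + j ∨ q = t := by
    intro j hj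
    obtain ⟨π, hπ, h0, h1⟩ := hFP _ (hLRr j hj)
    rw [(hrun j hj).1] at h1
    have h2 : ¬ ∀ q, π q ≠ 0 → LR h lng q ∧ q / (2 * h + 2) = p := fun h3 =>
      hcase ⟨π, hπ, ⟨_, h0⟩, h3⟩
    push Not at h2
    obtain ⟨t, ht0, ht1⟩ := h2
    obtain ⟨ht2, ht3⟩ := h1 t ht0
    have ht4 : t / (2 * h + 2) ≠ p := ht1 ht2
    have ht5 : p < t / (2 * h + 2) := lt_of_le_of_ne ht3 (Ne.symm ht4)
    refine ⟨π, hπ, t, h0, ht0, ht2, ht5, ?_⟩
    obtain ⟨a, b, hab⟩ := (hSm π hπ).2.2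
    have hne : p * (2 * h + 2) + j ≠ t := by
      intro h6
      rw [← h6, (hrun j hj).1] at ht5
      exact lt_irrefl _ ht5
    intro q hq
    have a1 := hab _ h0
    have a2 := hab _ ht0
    have a3 := hab _ hq
    omega
  choose! π hπQ t hπr hπt hLt hpt hsupp using key
  -- everything is below M
  have hbelow : ∀ (ρ : ℕ → ℕ), ρ ∈ Q → ∀ q, ρ q ≠ 0 → q < M := by
    intro ρ hρ q hq
    by_contra h1
    exact hq ((hSm ρ hρ).2.1 q (by omega))
  -- position order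
  have hposlt : ∀ j, j < 2 * h → ∀ i, i < 2 * h → p * (2 * h + 2) + i < t j := by
    intro j hj i hi
    by_contra h1
    push Not at h1
    have h2 := Nat.div_le_div_right (c := 2 * h + 2) h1
    rw [(hrun i hi).1] at h2
    have := hpt j hj
    omega
  have hmono : ∀ j, j + 1 < 2 * h → t (j + 1) ≤ t j := by
    intro j hj
    by_contra h1
    push Not at h1
    exact hNC (π j) (hπQ j (by omega)) (π (j + 1)) (hπQ (j + 1) hj) (p * (2 * h + 2) + j)
      (p * (2 * h + 2) + (j + 1)) (t j) (t (j + 1)) (by omega) (hposlt j (by omega) (j + 1) hj) h1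
      (hπr j (by omega)) (hπt j (by omega)) (hπr (j + 1) hj) (hπt (j + 1) hj)
  -- pigeonhole
  obtain ⟨j, hj, hpos⟩ : ∃ j, j + 1 < 2 * h ∧ t j / (2 * h + 2) = t (j + 1) / (2 * h + 2) := by
    by_contra hcon
    push Not at hcon
    have hdec : ∀ j, j < 2 * h → t j / (2 * h + 2) + j ≤ t 0 / (2 * h + 2) := by
      intro j
      induction j with
      | zero => intro _; omega
      | succ j ih =>
        intro hj
        have h1 := ih (by omega)
        have h2 := Nat.div_le_div_right (c := 2 * h + 2) (hmono j hj)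
        have h3 := hcon j hj
        omega
    have h1 := hdec (2 * h - 1) (by omega)
    have h2 := hlng _ (hLt 0 (by omega)).1
    have h3 : 2 * h - 1 ≤ t 0 / (2 * h + 2) := le_trans (Nat.le_add_left _ _) h1
    omega
  have hj0 : j < 2 * h := by omega
  -- generic conclusion
  suffices hgen : ∃ c₁ c₂ : ℤ, (c₁ ≠ 0 ∨ c₂ ≠ 0) ∧ |c₁| ≤ (B : ℤ) ^ 3 ∧ |c₂| ≤ (B : ℤ) ^ 3 ∧
      ∀ ψ : ℕ → ℚ, Ann M Q ψ → BC h lng ψ →
        (c₁ : ℚ) * ψ (LAB_l h (p * (2 * h + 2) + j)) +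
          (c₂ : ℚ) * ψ (LAB_l h (p * (2 * h + 2) + (j + 1))) = 0 by
    obtain ⟨c₁, c₂, hc, hc1, hc2, hrel⟩ := hgen
    have e1 : LAB_l h (p * (2 * h + 2) + j) = p * (2 * h + 2) + (2 * h - 2 + j % 2) := by
      unfold LAB_l
      rw [(hrun j hj0).1, (hrun j hj0).2]
    have e2 : LAB_l h (p * (2 * h + 2) + (j + 1)) =
        p * (2 * h + 2) + (2 * h - 2 + (j + 1) % 2) := by
      unfold LAB_l
      rw [(hrun (j + 1) hj).1, (hrun (j + 1) hj).2]
    rcases Nat.mod_two_eq_zero_or_one j with hj2 | hj2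
    · have hj3 : (j + 1) % 2 = 1 := by omega
      refine ⟨(c₁, c₂), ?_, hc1, hc2, ?_⟩
      · intro h0
        rw [Prod.mk_eq_zero] at h0
        rcases hc with h1 | h1
        · exact h1 h0.1
        · exact h1 h0.2
      · intro ψ h1 h2
        have h3 := hrel ψ h1 h2
        rw [e1, e2, hj2, hj3, add_zero] at h3
        have e3 : 2 * h - 2 + 1 = 2 * h - 1 := by omega
        rw [e3] at h3
        simp only
        linarith
    · have hj3 : (j + 1) % 2 = 0 := by omega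
      refine ⟨(c₂, c₁), ?_, hc2, hc1, ?_⟩
      · intro h0
        rw [Prod.mk_eq_zero] at h0
        rcases hc with h1 | h1
        · exact h1 h0.2
        · exact h1 h0.1
      · intro ψ h1 h2
        have h3 := hrel ψ h1 h2
        rw [e1, e2, hj2, hj3, add_zero] at h3
        have e3 : 2 * h - 2 + 1 = 2 * h - 1 := by omega
        rw [e3] at h3
        simp only
        linarith
  -- abbreviations
  set r := p * (2 * h + 2) + j with hr
  set r' := p * (2 * h + 2) + (j + 1) with hr'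
  set s := t j with hs
  set s' := t (j + 1) with hs'
  have hrs : r ≠ s := (hposlt j hj0 j hj0).ne
  have hrs' : r' ≠ s' := (hposlt (j + 1) hj (j + 1) hj).ne
  have R1 : ∀ ψ : ℕ → ℚ, Ann M Q ψ → BC h lng ψ →
      (LAB_c h (π j) r : ℚ) * ψ (LAB_l h r) + (LAB_c h (π j) s : ℚ) * ψ (LAB_l h s) = 0 := by
    intro ψ h1 h2
    exact LAB_rel hh h2 (hbelow _ (hπQ j hj0) _ (hπr j hj0)) (hbelow _ (hπQ j hj0) _ (hπt j hj0)) hrs
      (hLRr j hj0) (hLt j hj0) (hsupp j hj0) (h1 _ (hπQ j hj0))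
  have R2 : ∀ ψ : ℕ → ℚ, Ann M Q ψ → BC h lng ψ →
      (LAB_c h (π (j + 1)) r' : ℚ) * ψ (LAB_l h r') +
        (LAB_c h (π (j + 1)) s' : ℚ) * ψ (LAB_l h s') = 0 := by
    intro ψ h1 h2
    exact LAB_rel hh h2 (hbelow _ (hπQ (j + 1) hj) _ (hπr (j + 1) hj))
      (hbelow _ (hπQ (j + 1) hj) _ (hπt (j + 1) hj)) hrs'
      (hLRr (j + 1) hj) (hLt (j + 1) hj) (hsupp (j + 1) hj) (h1 _ (hπQ (j + 1) hj))
  have A1 : |LAB_c h (π j) r| ≤ B := LAB_c_abs _ _ _ _ ((hSm _ (hπQ j hj0)).1 _)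
  have A2 : |LAB_c h (π j) s| ≤ B := LAB_c_abs _ _ _ _ ((hSm _ (hπQ j hj0)).1 _)
  have A3 : |LAB_c h (π (j + 1)) r'| ≤ B := LAB_c_abs _ _ _ _ ((hSm _ (hπQ (j + 1) hj)).1 _)
  have A4 : |LAB_c h (π (j + 1)) s'| ≤ B := LAB_c_abs _ _ _ _ ((hSm _ (hπQ (j + 1) hj)).1 _)
  have N1 : LAB_c h (π j) r ≠ 0 := LAB_c_ne _ _ _ (hπr j hj0)
  have N2 : LAB_c h (π j) s ≠ 0 := LAB_c_ne _ _ _ (hπt j hj0)
  have N3 : LAB_c h (π (j + 1)) r' ≠ 0 := LAB_c_ne _ _ _ (hπr (j + 1) hj)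
  have N4 : LAB_c h (π (j + 1)) s' ≠ 0 := LAB_c_ne _ _ _ (hπt (j + 1) hj)
  set α := LAB_c h (π j) r
  set β := LAB_c h (π j) s
  set γ := LAB_c h (π (j + 1)) r'
  set δ := LAB_c h (π (j + 1)) s'
  have mulB : ∀ x y : ℤ, |x| ≤ B → |y| ≤ B → |x * y| ≤ (B : ℤ) ^ 2 := by
    intro x y hx hy
    rw [abs_mul, sq]
    exact mul_le_mul hx hy (abs_nonneg _) (by positivity)
  have mulB3 : ∀ x y z : ℤ, |x| ≤ B → |y| ≤ B → |z| ≤ B → |x * (y * z)| ≤ (B : ℤ) ^ 3 := by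
    intro x y z hx hy hz
    rw [abs_mul]
    calc |x| * |y * z| ≤ (B : ℤ) * (B : ℤ) ^ 2 :=
          mul_le_mul hx (mulB y z hy hz) (abs_nonneg _) (by positivity)
      _ = (B : ℤ) ^ 3 := by ring
  by_cases hty : s % (2 * h + 2) % 2 = s' % (2 * h + 2) % 2
  · -- the same type
    have hl : LAB_l h s = LAB_l h s' := by
      unfold LAB_l
      rw [hpos, hty]
    refine ⟨α * δ, -(β * γ), Or.inl (mul_ne_zero N1 N4), (mulB _ _ A1 A4).trans hB2, ?_, ?_⟩
    · rw [abs_neg]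
      exact (mulB _ _ A2 A3).trans hB2
    · intro ψ h1 h2
      have e1 := R1 ψ h1 h2
      have e2 := R2 ψ h1 h2
      rw [hl] at e1
      push_cast
      linear_combination (δ : ℚ) * e1 - (β : ℚ) * e2
  · -- different types
    have hss : s' < s := by
      have h1 : s' ≤ s := hmono j hj
      rcases h1.lt_or_eq with h2 | h2
      · exact h2
      · exact absurd (by rw [h2]) hty
    obtain ⟨ρ, hρ, hρ0, hρ1⟩ := hFP s' (hLt (j + 1) hj)
    have hadj : ∃ π ∈ Q, (∃ q, π q ≠ 0) ∧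
        ∀ q, π q ≠ 0 → LR h lng q ∧ q / (2 * h + 2) = s' / (2 * h + 2) := by
      refine ⟨ρ, hρ, ⟨s', hρ0⟩, fun q hq => ⟨(hρ1 q hq).1, ?_⟩⟩
      have h1 := (hρ1 q hq).2
      have h2 : q ≤ s := by
        by_contra h3
        push Not at h3
        exact hNC (π j) (hπQ j hj0) ρ hρ r s' s q (hposlt (j + 1) hj j hj0) hss h3
          (hπr j hj0) (hπt j hj0) hρ0 hq
      have h3 := Nat.div_le_div_right (c := 2 * h + 2) h2
      rw [hpos] at h3
      omega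
    obtain ⟨d, hd0, hd1, hd2, hrel⟩ := hADJ h n B M lng Q hh hM hlng hSm hNC hFP
      (s' / (2 * h + 2)) (hLt (j + 1) hj).1 hadj
    -- relation in terms of the types of s and s'
    obtain ⟨μ, ν, hμν, hμ, hν, hrel'⟩ : ∃ μ ν : ℤ, (μ ≠ 0 ∨ ν ≠ 0) ∧ |μ| ≤ B ∧ |ν| ≤ B ∧
        ∀ ψ : ℕ → ℚ, Ann M Q ψ → BC h lng ψ →
          (μ : ℚ) * ψ (LAB_l h s) + (ν : ℚ) * ψ (LAB_l h s') = 0 := by
      have hd : d.1 ≠ 0 ∨ d.2 ≠ 0 := by
        by_contra h1
        push Not at h1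
        exact hd0 (Prod.ext h1.1 h1.2)
      rcases Nat.mod_two_eq_zero_or_one (s % (2 * h + 2)) with h0 | h0
      · have h0' : s' % (2 * h + 2) % 2 = 1 := by omega
        refine ⟨d.1, d.2, hd, hd1, hd2, fun ψ h1 h2 => ?_⟩
        have h3 := hrel ψ h1 h2
        unfold LAB_l
        rw [hpos, h0, h0']
        have e3 : 2 * h - 2 + 1 = 2 * h - 1 := by omega
        rw [e3, add_zero]
        linarith
      · have h0' : s' % (2 * h + 2) % 2 = 0 := by omega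
        refine ⟨d.2, d.1, hd.symm, hd2, hd1, fun ψ h1 h2 => ?_⟩
        have h3 := hrel ψ h1 h2
        unfold LAB_l
        rw [hpos, h0, h0']
        have e3 : 2 * h - 2 + 1 = 2 * h - 1 := by omega
        rw [e3, add_zero]
        linarith
    refine ⟨μ * (α * δ), ν * (β * γ), ?_, mulB3 _ _ _ hμ A1 A4, mulB3 _ _ _ hν A2 A3, ?_⟩
    · rcases hμν with h1 | h1
      · exact Or.inl (mul_ne_zero h1 (mul_ne_zero N1 N4))
      · exact Or.inr (mul_ne_zero h1 (mul_ne_zero N2 N3))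
    · intro ψ h1 h2
      have e1 := R1 ψ h1 h2
      have e2 := R2 ψ h1 h2
      have e3 := hrel' ψ h1 h2
      push_cast
      linear_combination ((μ : ℚ) * δ) * e1 + ((ν : ℚ) * β) * e2 - ((β : ℚ) * δ) * e3

end WZ
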